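import Pool.Agent.H34.GA.Targets1
import Pool.Agent.H77.GZ.ADJ

/-!
Row NZU of gaa_modules (MP_52e316_nt): a form is not identically zero iff its norm is positive.
-/

set_option autoImplicit false

namespace Pool.Agent.H12.GA

open MeasureTheory Pool.Agent.H34.GM Pool.Agent.H34.GZ Pool.Agent.H34.GU Pool.Agent.H34.GA
open Pool.Agent.H77.GZ (det_ne cont_mt)

private lemma det_cR {m : ℕ} (γ : ZM m) : (cR γ).det = ((γ.det : ℤ) : ℝ) :=
  ((Int.castRingHom ℝ).map_det γ).symm

private lemma det_unit {m : ℕ} {γ : ZM m} (hγ : IsUnit γ) : (cR γ).det ≠ 0 := by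
  rw [det_cR]
  have h2 := (Matrix.isUnit_iff_isUnit_det γ).1 hγ
  exact_mod_cast h2.ne_zero

private lemma aN_smul {m : ℕ} (hm : 1 ≤ m) {r : ℝ} (hr : 0 < r) (z : Mat m) :
    aN (r • z) = r * aN z := by
  have hm0 : (m : ℝ) ≠ 0 := by
    have : (0 : ℝ) < m := by exact_mod_cast hm
    exact this.ne'
  unfold aN
  rw [Matrix.det_smul, Fintype.card_fin, abs_mul, abs_of_pos (pow_pos hr m),
    Real.mul_rpow (pow_pos hr m).le (abs_nonneg _), ← Real.rpow_natCast r m,
    ← Real.rpow_mul hr.le, mul_one_div_cancel hm0, Real.rpow_one]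

private lemma aN_pos {m : ℕ} {z : Mat m} (hz : z.det ≠ 0) : 0 < aN z := by
  unfold aN
  exact Real.rpow_pos_of_pos (abs_pos.2 hz) _

private lemma aN_cont {m : ℕ} (hm : 1 ≤ m) : Continuous (fun z : V m => aN (mt z)) := by
  unfold aN
  have h1 : Continuous (fun z : V m => |(mt z).det|) := ((cont_mt m).matrix_det).abs
  refine h1.rpow_const fun z => Or.inr ?_
  positivity

theorem pf_NZU (hUNZ : T_UNZ) (hALU : T_ALU) (hMSR : T_MSR) (hVLM : T_VLM) : T_NZU := by
  classical
  intro m N _ T D hS F lam hF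
  have hm1 := hS.one_le
  have hN2 := hS.two_le
  have hD := hS.dom
  obtain ⟨C, K, -, hvl⟩ := hVLM m hm1
  have hfin : hm m D < ⊤ := lt_of_le_of_lt (hvl D hD).1 ENNReal.ofReal_lt_top
  obtain ⟨BF, hBF⟩ := hF.bdd
  obtain ⟨-, hdm, -, -, hsig, hShm, hkkm, hΦm⟩ := hMSR.1 m
  obtain ⟨-, -, -, -, -, hbij⟩ := hALU m N hm1 hN2
  have hdet : ∀ z ∈ D, (mt z).det ≠ 0 := fun z hz => det_ne hm1 (hD.shell z hz).1
  have hfm : IsFiniteMeasure ((hm m).restrict D) := ⟨by rwa [Measure.restrict_apply_univ]⟩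
  constructor
  · rintro ⟨g, x0, hg, hgx⟩
    by_contra hneg
    have hnn : 0 ≤ nU D F := by
      unfold nU
      exact Finset.sum_nonneg fun x _ => integral_nonneg fun z => by positivity
    have hn0 : nU D F = 0 := le_antisymm (not_lt.1 hneg) hnn
    have hsm : ∀ x, AEStronglyMeasurable (fun z : V m => F (mt z) x) ((hm m).restrict D) := by
      intro x
      have h1 : ContinuousOn (fun z : V m => F (mt z) x) D :=
        (hF.cont x).comp (cont_mt m).continuousOn (fun z hz => hdet z hz)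
      exact h1.aestronglyMeasurable hD.meas
    have hint : ∀ x, Integrable (fun z : V m => ‖F (mt z) x‖ ^ 2) ((hm m).restrict D) := by
      intro x
      refine Integrable.of_bound ((hsm x).norm.pow 2) (BF ^ 2) ?_
      rw [ae_restrict_iff' hD.meas]
      refine Filter.Eventually.of_forall fun z hz => ?_
      have h1 := hBF (mt z) x (hdet z hz)
      rw [Real.norm_of_nonneg (by positivity)]
      exact pow_le_pow_left₀ (norm_nonneg _) h1 2
    have hnL : ∫⁻ z in D, ENNReal.ofReal (∑ x, ‖F (mt z) x‖ ^ 2) ∂(hm m) = 0 := by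
      have h1 : nU D F = ∫ z in D, ∑ x, ‖F (mt z) x‖ ^ 2 ∂(hm m) := by
        unfold nU
        rw [integral_finsetSum _ fun x _ => hint x]
      rw [← ofReal_integral_eq_lintegral_ofReal (integrable_finsetSum _ fun x _ => hint x)
        (Filter.Eventually.of_forall fun z => Finset.sum_nonneg fun x _ => by positivity),
        ← h1, hn0, ENNReal.ofReal_zero]
    -- the function
    have hDm : MeasurableSet {z : V m | (mt z).det ≠ 0} := by
      have h1 := hdm (measurableSet_singleton (0 : ℝ))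
      exact h1.compl
    obtain ⟨P, hP⟩ : ∃ P : VN m N → V m → ℝ, P = fun x =>
      ({z : V m | (mt z).det ≠ 0}).piecewise (fun z => ‖F (mt z) x‖) (fun _ => 0) := ⟨_, rfl⟩
    have hPm : ∀ x, Measurable (P x) := by
      intro x
      rw [hP]
      refine ContinuousOn.measurable_piecewise ?_ continuousOn_const hDm
      exact ((hF.cont x).comp (cont_mt m).continuousOn (fun z hz => hz)).norm
    have hP1 : ∀ x z, (mt z).det ≠ 0 → P x z = ‖F (mt z) x‖ := by
      intro x z hz
      rw [hP]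
      exact Set.piecewise_eq_of_mem _ _ _ hz
    obtain ⟨f, hf⟩ : ∃ f : V m → ENNReal, f = fun z => ENNReal.ofReal (∑ x, (P x z) ^ 2) :=
      ⟨_, rfl⟩
    have hfme : Measurable f := by
      rw [hf]
      exact (Finset.measurable_sum _ fun x _ => (hPm x).pow_const 2).ennreal_ofReal
    have hf1 : ∀ z, (mt z).det ≠ 0 → f z = ENNReal.ofReal (∑ x, ‖F (mt z) x‖ ^ 2) := by
      intro z hz
      rw [hf]
      simp only [hP1 _ z hz]
    have hinv : ∀ γ : ZM m, IsUnit γ → ∀ z : V m, (mt z).det ≠ 0 →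
        f (fun i j => (cR γ * mt z) i j) = f z := by
      intro γ hγ z hz
      have h2 : (H34.GM.mt (fun i j => (cR γ * H34.GM.mt z) i j : V m)).det ≠ 0 := by
        show (cR γ * mt z).det ≠ 0
        rw [Matrix.det_mul]
        exact mul_ne_zero (det_unit hγ) hz
      rw [hf1 _ h2, hf1 _ hz]
      congr 1
      show ∑ x, ‖F (cR γ * H34.GM.mt z) x‖ ^ 2 = _
      rw [← Function.Bijective.sum_comp (hbij γ hγ) fun x => ‖F (cR γ * mt z) x‖ ^ 2]
      refine Finset.sum_congr rfl fun x _ => ?_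
      rw [hF.auto γ hγ (mt z) x hz]
    have hf0 : ∀ᵐ z ∂((hm m).restrict D), f z = 0 := by
      have h1 : ∫⁻ z in D, f z ∂(hm m) = 0 := by
        rw [← hnL]
        exact setLIntegral_congr_fun hD.meas fun z hz => hf1 z (hdet z hz)
      exact (lintegral_eq_zero_iff hfme).1 h1
    have hSh : ∫⁻ z in Shell m, f z ∂(hm m) = 0 := by
      rw [(hUNZ m hm1 D hD).1 f hfme]
      have h1 : (fun z => ∑' γ : {γ : ZM m // IsUnit γ}, f (fun i j => (cR γ.1 * mt z) i j))
          =ᵐ[(hm m).restrict D] fun _ => 0 := by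
        filter_upwards [hf0, ae_restrict_mem hD.meas] with z hz hzD
        rw [ENNReal.tsum_eq_zero]
        intro γ
        rw [hinv γ.1 γ.2 z (hdet z hzD), hz]
      rw [lintegral_congr_ae h1, lintegral_zero]
    have hS0 : ∀ᵐ z ∂((hm m).restrict (Shell m)), f z = 0 := (lintegral_eq_zero_iff hfme).1 hSh
    -- the open set
    obtain ⟨W, hW⟩ : ∃ W : Set (V m), W = {z : V m | (mt z).det ≠ 0 ∧ F (mt z) x0 ≠ 0} ∩
      {z | 1 < aN (mt z)} ∩ {z | aN (mt z) < Real.exp 1} := ⟨_, rfl⟩
    have hdo : IsOpen {z : V m | (mt z).det ≠ 0} :=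
      isOpen_ne_fun (cont_mt m).matrix_det continuous_const
    have hWo : IsOpen W := by
      rw [hW]
      refine (IsOpen.inter ?_ (isOpen_lt continuous_const (aN_cont hm1))).inter
        (isOpen_lt (aN_cont hm1) continuous_const)
      have h1 : ContinuousOn (fun z : V m => F (mt z) x0) {z : V m | (mt z).det ≠ 0} :=
        (hF.cont x0).comp (cont_mt m).continuousOn (fun z hz => hz)
      exact h1.isOpen_inter_preimage hdo isOpen_ne
    have hWn : W.Nonempty := by
      have ha := aN_pos hg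
      have hr : 0 < Real.exp (1 / 2) / aN g := div_pos (Real.exp_pos _) ha
      have h1 : aN ((Real.exp (1 / 2) / aN g) • g) = Real.exp (1 / 2) := by
        rw [aN_smul hm1 hr, div_mul_cancel₀ _ ha.ne']
      refine ⟨fun i j => ((Real.exp (1 / 2) / aN g) • g) i j, ?_⟩
      rw [hW]
      refine ⟨⟨⟨?_, ?_⟩, ?_⟩, ?_⟩
      · show ((Real.exp (1 / 2) / aN g) • g).det ≠ 0
        rw [Matrix.det_smul]
        exact mul_ne_zero (pow_ne_zero _ hr.ne') hg
      · show F ((Real.exp (1 / 2) / aN g) • g) x0 ≠ 0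
        rw [hF.scal _ hr g x0 hg]
        exact hgx
      · show 1 < aN ((Real.exp (1 / 2) / aN g) • g)
        rw [h1]
        exact Real.one_lt_exp_iff.2 (by norm_num)
      · show aN ((Real.exp (1 / 2) / aN g) • g) < Real.exp 1
        rw [h1]
        exact Real.exp_lt_exp.2 (by norm_num)
    have hWs : W ⊆ Shell m := by
      intro z hz
      rw [hW] at hz
      exact ⟨le_of_lt hz.1.2, hz.2⟩
    have hW0 : hm m W = 0 := by
      have h1 : ∀ᵐ z ∂(hm m), z ∈ Shell m → f z = 0 := (ae_restrict_iff' hShm).1 hS0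
      refine measure_mono_null ?_ (ae_iff.1 h1)
      intro z hz
      simp only [Set.mem_ofPred_eq, Classical.not_imp]
      refine ⟨hWs hz, ?_⟩
      rw [hW] at hz
      rw [hf1 z hz.1.1.1]
      have h2 : 0 < ∑ x, ‖F (mt z) x‖ ^ 2 :=
        Finset.sum_pos' (fun x _ => by positivity)
          ⟨x0, Finset.mem_univ _, by have := norm_pos_iff.2 hz.1.1.2; positivity⟩
      exact (ENNReal.ofReal_pos.2 h2).ne'
    have hρ : Measurable (fun z : V m => ENNReal.ofReal ((|(mt z).det| ^ m)⁻¹)) := by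
      have h1 : Measurable (fun z : V m => |(mt z).det|) :=
        (((cont_mt m).matrix_det).abs).measurable
      exact ((h1.pow_const m).inv).ennreal_ofReal
    have hV0 : (volume : Measure (V m)) W = 0 := by
      unfold hm at hW0
      rw [withDensity_apply_eq_zero hρ] at hW0
      refine measure_mono_null ?_ hW0
      intro z hz
      refine ⟨?_, hz⟩
      rw [hW] at hz
      have h2 : 0 < (|(mt z).det| ^ m)⁻¹ := inv_pos.2 (pow_pos (abs_pos.2 hz.1.1.1) m)
      exact (ENNReal.ofReal_pos.2 h2).ne'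
    exact (hWo.measure_pos volume hWn).ne' hV0
  · intro hpos
    by_contra hnz
    have h0 : ∀ g x, g.det ≠ 0 → F g x = 0 := by
      intro g x hg
      by_contra h
      exact hnz ⟨g, x, hg, h⟩
    have h1 : nU D F = 0 := by
      unfold nU
      refine Finset.sum_eq_zero fun x _ => ?_
      refine setIntegral_eq_zero_of_forall_eq_zero fun z hz => ?_
      rw [h0 _ x (hdet z hz), norm_zero]
      norm_num
    rw [h1] at hpos
    exact lt_irrefl _ hpos

end Pool.Agent.H12.GA
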